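import Pool.Agent.Helper68.EP.St1

set_option autoImplicit false

open MeasureTheory Set Filter Topology
open scoped ENNReal RealInnerProductSpace

namespace Pool.Agent.Helper89.EP

open Pool.Agent.Helper68.EP Pool.Agent.Helper20.RG
open Pool.Agent.Helper20.RL (RQ Rich BM Fml)
open Pool.Agent.Helper68.LM (Pl)

/-- absorbing a part of a finite quantity -/
theorem absorb (a b : ℝ≥0∞) (c : ℝ) (ha : a ≠ ⊤) (hc0 : 0 ≤ c) (hc : c < 1)
    (h : a ≤ b + ENNReal.ofReal c * a) : a ≤ ENNReal.ofReal (1 / (1 - c)) * b := by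
  have h1c : 0 < 1 - c := by linarith
  by_cases hb : b = ⊤
  · rw [hb, ENNReal.mul_top]
    · exact le_top
    · simp only [ne_eq, ENNReal.ofReal_eq_zero, not_le]
      positivity
  · have hr : a.toReal ≤ b.toReal + c * a.toReal := by
      have h2 := ENNReal.toReal_mono (by
        exact ENNReal.add_ne_top.2 ⟨hb, ENNReal.mul_ne_top ENNReal.ofReal_ne_top ha⟩) h
      rw [ENNReal.toReal_add hb (ENNReal.mul_ne_top ENNReal.ofReal_ne_top ha),
        ENNReal.toReal_mul, ENNReal.toReal_ofReal hc0] at h2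
      exact h2
    have hr2 : a.toReal ≤ 1 / (1 - c) * b.toReal := by
      rw [div_mul_eq_mul_div, one_mul, le_div_iff₀ h1c]
      nlinarith
    rw [← ENNReal.ofReal_toReal ha, ← ENNReal.ofReal_toReal hb, ← ENNReal.ofReal_mul (by positivity)]
    exact ENNReal.ofReal_le_ofReal hr2

theorem et_pos (P : Par) (u q : ℕ) : 0 < et P u q := by
  unfold et
  positivity

theorem sum_et (P : Par) (u : ℕ) : ∑ q ∈ Finset.range (q1 P u + 1), et P u q ≤ 1 / 8 := by
  have h : ∀ n : ℕ, ∑ q ∈ Finset.range (n + 1), (2 : ℝ) ^ ((q : ℤ) - (n : ℤ) - 4) ≤ 1 / 8 := by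
    intro n
    have h1 : ∀ q : ℕ, (2 : ℝ) ^ ((q : ℤ) - (n : ℤ) - 4) = (2 : ℝ) ^ q * (2 : ℝ) ^ (-(n : ℤ) - 4) := by
      intro q
      rw [← zpow_natCast (2 : ℝ) q, ← zpow_add₀ (by norm_num : (2 : ℝ) ≠ 0)]
      congr 1
      ring
    rw [Finset.sum_congr rfl (fun q _ => h1 q), ← Finset.sum_mul]
    have h2 : ∑ q ∈ Finset.range (n + 1), (2 : ℝ) ^ q = (2 : ℝ) ^ (n + 1) - 1 := by
      rw [geom_sum_eq (by norm_num)]
      norm_num
    rw [h2]
    have h3 : (2 : ℝ) ^ (n + 1) * (2 : ℝ) ^ (-(n : ℤ) - 4) = 1 / 8 := by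
      rw [← zpow_natCast (2 : ℝ) (n + 1), ← zpow_add₀ (by norm_num : (2 : ℝ) ≠ 0)]
      have : ((n + 1 : ℕ) : ℤ) + (-(n : ℤ) - 4) = -3 := by push_cast; ring
      rw [this]
      norm_num
    have h4 : 0 < (2 : ℝ) ^ (-(n : ℤ) - 4) := by positivity
    nlinarith
  exact h _

theorem hETY (hEVF : StEVF) (hECS : StECS) (hETG : StETG) (hEFB : StEFB) : StETY := by
  intro P Δ u j k θ E hE hθ
  obtain ⟨hcell, hsubV, hsubM, hfam⟩ := hEVF P Δ u j k θ E hE hθ
  have hFm : ∀ q : ℕ, MeasurableSet (Fo P u k q E) := by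
    intro q
    exact (hEFB.1 E (DD P u) (k - 2 ^ q)).2.1 hE.1
  have hFfin : volume (Fo P u k (q0 P u) E) ≠ ⊤ := by
    have h1 : Fo P u k (q0 P u) E ⊆ E := (hEFB.1 E (DD P u) (k - 2 ^ (q0 P u))).1
    exact ne_top_of_le_ne_top hE.2.measure_lt_top.ne (measure_mono h1)
  -- first part
  have hA1 : ∀ V' : Set Pl, Sub P Δ u j k θ E V' →
      volume ((Fo P u k (q0 P u) E ∩ V') \ Tc P Δ u j k θ E) ≤ ENNReal.ofReal (θ / 4) * volume V' := by
    intro V' hV'
    obtain ⟨hF, _, _, _⟩ := hfam V' hV'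
    have hincl : (Fo P u k (q0 P u) E ∩ V') \ Tc P Δ u j k θ E ⊆
        {z | z ∈ Fo P u k (q0 P u) E ∧ z ∈ V' ∧ ∃ a' : ℤ, a' ≤ k - (u : ℤ) ∧
          ¬ Rich (Fo P u k (q0 P u) E) (Δ.sl u j) a' (Bc P Δ u j k θ E z) (θ / 8) z} ∪
        ⋃ q ∈ Finset.range (q1 P u + 1),
          {z | z ∈ Fo P u k q E ∧ z ∈ V' ∧ ∃ a' : ℤ, a' ≤ k - (u : ℤ) ∧
            ¬ Rich (Fo P u k q E) (Δ.sl u j) a' (Bc P Δ u j k θ E z) (et P u q * θ) z} := by
      intro z hz
      obtain ⟨⟨hzF, hzV⟩, hzT⟩ := hz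
      by_contra hcon
      rw [Set.mem_union, not_or] at hcon
      obtain ⟨hc1, hc2⟩ := hcon
      apply hzT
      refine ⟨hzF, hV'.1 hzV, ?_, ?_⟩
      · intro a ha
        by_contra hR
        exact hc1 ⟨hzF, hzV, a, ha, hR⟩
      · intro q hq0 hq1 hzq a ha
        by_contra hR
        apply hc2
        rw [Set.mem_iUnion₂]
        exact ⟨q, Finset.mem_range.2 (by omega), hzq, hzV, a, ha, hR⟩
    refine (measure_mono hincl).trans ((measure_union_le _ _).trans ?_)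
    have h1 := hETG (Fo P u k (q0 P u) E) (Fo P u k (q0 P u) E) (Δ.sl u j) θ (θ / 8) V'
      (k - (u : ℤ)) (Bc P Δ u j k θ E) (hFm _) (hFm _) hθ (by positivity) hF
    have h2 : volume (⋃ q ∈ Finset.range (q1 P u + 1),
          {z | z ∈ Fo P u k q E ∧ z ∈ V' ∧ ∃ a' : ℤ, a' ≤ k - (u : ℤ) ∧
            ¬ Rich (Fo P u k q E) (Δ.sl u j) a' (Bc P Δ u j k θ E z) (et P u q * θ) z}) ≤
        ∑ q ∈ Finset.range (q1 P u + 1), ENNReal.ofReal (et P u q * θ) * volume V' := by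
      refine (measure_biUnion_finset_le _ _).trans (Finset.sum_le_sum ?_)
      intro q _
      exact hETG (Fo P u k (q0 P u) E) (Fo P u k q E) (Δ.sl u j) θ (et P u q * θ) V'
        (k - (u : ℤ)) (Bc P Δ u j k θ E) (hFm _) (hFm _) hθ (mul_pos (et_pos P u q) hθ) hF
    have h3 : ∑ q ∈ Finset.range (q1 P u + 1), ENNReal.ofReal (et P u q * θ) * volume V' ≤
        ENNReal.ofReal (θ / 8) * volume V' := by
      rw [← Finset.sum_mul, ← ENNReal.ofReal_sum_of_nonneg]
      · gcongr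
        rw [← Finset.sum_mul]
        have := sum_et P u
        nlinarith
      · intro q _
        exact (mul_pos (et_pos P u q) hθ).le
    calc _ ≤ ENNReal.ofReal (θ / 8) * volume V' + ENNReal.ofReal (θ / 8) * volume V' :=
          add_le_add h1 (h2.trans h3)
      _ = ENNReal.ofReal (θ / 4) * volume V' := by
          rw [← add_mul, ← ENNReal.ofReal_add (by positivity) (by positivity)]
          congr 2
          ring
  have hVfin : ∀ V' : Set Pl, Sub P Δ u j k θ E V' → volume V' ≠ ⊤ := by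
    intro V' hV'
    obtain ⟨_, _, _, h4⟩ := hfam V' hV'
    refine ne_top_of_le_ne_top ?_ h4
    exact ENNReal.mul_ne_top ENNReal.ofReal_ne_top
      (ne_top_of_le_ne_top hFfin (measure_mono Set.inter_subset_left))
  refine ⟨fun V' hV' => ⟨hA1 V' hV', ?_⟩, ?_⟩
  · obtain ⟨_, _, _, h4⟩ := hfam V' hV'
    have hs : volume (Fo P u k (q0 P u) E ∩ V') ≤ volume (Tc P Δ u j k θ E ∩ V') +
        ENNReal.ofReal (θ / 4) * volume V' := by
      have hi : Fo P u k (q0 P u) E ∩ V' ⊆ (Tc P Δ u j k θ E ∩ V') ∪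
          ((Fo P u k (q0 P u) E ∩ V') \ Tc P Δ u j k θ E) := by
        intro z hz
        by_cases hT : z ∈ Tc P Δ u j k θ E
        · exact Or.inl ⟨hT, hz.2⟩
        · exact Or.inr ⟨hz, hT⟩
      exact (measure_mono hi).trans ((measure_union_le _ _).trans (add_le_add le_rfl (hA1 V' hV')))
    have h5 : volume V' ≤ ENNReal.ofReal (1 / θ) * volume (Tc P Δ u j k θ E ∩ V') +
        ENNReal.ofReal (1 / 4) * volume V' := by
      refine h4.trans ((mul_le_mul_right hs _).trans (le_of_eq ?_))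
      rw [mul_add, ← mul_assoc, ← ENNReal.ofReal_mul (by positivity)]
      congr 3
      field_simp
    have h6 := absorb _ _ (1 / 4) (hVfin V' hV') (by norm_num) (by norm_num) h5
    refine h6.trans ?_
    rw [← mul_assoc, ← ENNReal.ofReal_mul (by norm_num)]
    gcongr
    rw [show (2 : ℝ) / θ = 2 * (1 / θ) by ring]
    have : (0 : ℝ) < 1 / θ := by positivity
    nlinarith
  · intro M
    have hV' := hsubM M
    obtain ⟨hF, _, _, h4⟩ := hfam _ hV'
    have hcs := hECS (Fo P u k (q0 P u) E) (Δ.sl u j) θ (VM P Δ u j k θ M E)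
      (Fo P u k (q0 P u) E) (Fo P u k (q0 P u) E ∩ Cn P Δ u j k M E)
      (fun _ => k - (u : ℤ)) (Bc P Δ u j k θ E) 2 hF (fun z hz => hz.2)
    set φ := volume (Fo P u k (q0 P u) E ∩ VM P Δ u j k θ M E) with hφ
    have hφfin : φ ≠ ⊤ := ne_top_of_le_ne_top hFfin (measure_mono Set.inter_subset_left)
    have hs : volume (Fo P u k (q0 P u) E ∩ Cn P Δ u j k M E ∩ VM P Δ u j k θ M E) ≤
        volume (Tc P Δ u j k θ E ∩ Cn P Δ u j k M E ∩ VM P Δ u j k θ M E) +
          ENNReal.ofReal (1 / 4) * φ := by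
      have hi : Fo P u k (q0 P u) E ∩ Cn P Δ u j k M E ∩ VM P Δ u j k θ M E ⊆
          (Tc P Δ u j k θ E ∩ Cn P Δ u j k M E ∩ VM P Δ u j k θ M E) ∪
          ((Fo P u k (q0 P u) E ∩ VM P Δ u j k θ M E) \ Tc P Δ u j k θ E) := by
        intro z hz
        by_cases hT : z ∈ Tc P Δ u j k θ E
        · exact Or.inl ⟨⟨hT, hz.1.2⟩, hz.2⟩
        · exact Or.inr ⟨⟨hz.1.1, hz.2⟩, hT⟩
      refine (measure_mono hi).trans ((measure_union_le _ _).trans (add_le_add le_rfl ?_))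
      refine (hA1 _ hV').trans ((mul_le_mul_right h4 _).trans (le_of_eq ?_))
      rw [← mul_assoc, ← ENNReal.ofReal_mul (by positivity)]
      congr 2
      field_simp
    have h5 : φ ≤ 2 * volume (Tc P Δ u j k θ E ∩ Cn P Δ u j k M E ∩ VM P Δ u j k θ M E) +
        ENNReal.ofReal (1 / 2) * φ := by
      refine hcs.trans ((mul_le_mul_right hs _).trans (le_of_eq ?_))
      rw [mul_add, ← mul_assoc]
      congr 2
      rw [show (2 : ℝ≥0∞) = ENNReal.ofReal 2 by norm_num, ← ENNReal.ofReal_mul (by norm_num)]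
      norm_num
    have h6 := absorb _ _ (1 / 2) hφfin (by norm_num) (by norm_num) h5
    refine h4.trans ((mul_le_mul_right h6 _).trans (le_of_eq ?_))
    rw [← mul_assoc, ← mul_assoc]
    congr 1
    rw [show (2 : ℝ≥0∞) = ENNReal.ofReal 2 by norm_num, ← ENNReal.ofReal_mul (by positivity),
      ← ENNReal.ofReal_mul (by positivity)]
    congr 1
    ring

end Pool.Agent.Helper89.EP
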